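import Pool.Agent.Run7.h41.NF.Iface

set_option autoImplicit false

/-!
# Project NF, piece KAP: existence of the coordinate
-/

namespace Run7.h896.NF

open Run7.h955 (Ev Thru Ins am cj)
open Run7.h41.NF

lemma el_op {n : ℕ} (t : Lt n) : el (op t) = (el t)⁻¹ := by
  unfold el op
  rw [FreeGroup.inv_mk]
  rfl

/-- A shadow whose base point is not in another shadow is on one side of it. -/
lemma side {n : ℕ} (hSH : S_SH) (hCON : S_CON) (v w : FG n) (s t : Lt n) (hv : v ∉ Sh w t) :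
    Sh w t ⊆ Sh v s ∨ Sh w t ⊆ (Sh v s)ᶜ := by
  have h6 := (hSH n).2.2.2.2.2.1
  refine hCON n (Sh v s) w t fun y hy u hyu => ?_
  by_cases h1 : y ∈ Sh v s <;> by_cases h2 : y * el u ∈ Sh v s
  · exact ⟨fun _ => h1, fun _ => h2⟩
  · exfalso
    have h := h6 v (y * el u) s (op u) h2 (by rw [el_op, mul_inv_cancel_right]; exact h1)
    exact hv (h.1 ▸ hyu)
  · exfalso
    have h := h6 v y s u h1 h2
    exact hv (h.1 ▸ hy)
  · exact ⟨fun h => absurd h h2, fun h => absurd h h1⟩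

/-- The two generators of an infinite cyclic group. -/
lemma gen_eq {n : ℕ} (hEVB : S_EVB) {y z : FG n} (hy : y ≠ 1)
    (h : Subgroup.zpowers z = Subgroup.zpowers y) : z = y ∨ z = y⁻¹ := by
  obtain ⟨a, ha⟩ := Subgroup.mem_zpowers_iff.1 (h ▸ Subgroup.mem_zpowers z)
  obtain ⟨b, hb⟩ := Subgroup.mem_zpowers_iff.1 (h.symm ▸ Subgroup.mem_zpowers y)
  have h1 : y ^ (a * b) = y ^ (1 : ℤ) := by
    rw [zpow_mul, ha, hb, zpow_one]
  have h2 : a * b = 1 := (hEVB n).1 y hy h1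
  rcases Int.eq_one_or_neg_one_of_mul_eq_one h2 with h3 | h3
  · left; rw [← ha, h3, zpow_one]
  · right; rw [← ha, h3, zpow_neg, zpow_one]

/-- What the coordinate has to satisfy, for one element. -/
def Good (n : ℕ) (y : FG n) (k : ℤ) : Prop :=
  (∀ j, j ≤ k → Ins y (H n j)) ∧ ¬ Ins y (H n (k + 1)) ∧ (∀ j, k + NN n + 3 ≤ j → Ins y (H n j)ᶜ)

lemma Ins_inv {n : ℕ} {y : FG n} {A : Set (FG n)} (h : Ins y A) : Ins y⁻¹ A := by
  refine ⟨h.2, ?_⟩
  rw [inv_inv]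
  exact h.1

lemma Ins_inv_iff {n : ℕ} {y : FG n} {A : Set (FG n)} : Ins y⁻¹ A ↔ Ins y A :=
  ⟨fun h => by simpa using Ins_inv h, Ins_inv⟩

lemma Good_inv {n : ℕ} {y : FG n} {k : ℤ} (h : Good n y k) : Good n y⁻¹ k := by
  unfold Good at h ⊢
  simpa only [Ins_inv_iff] using h

/-- Existence for one element. -/
lemma exists_good {n : ℕ} (hSH : S_SH) (hCON : S_CON) (hFCB : S_FCB) (hEVB : S_EVB) (hAXI : S_AXI)
    (hHYP : S_HYP) (hPZR : S_PZR) (ψ : MulAut (FG n))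
    (hne : Subgroup.zpowers (ψ (xx n)) ≠ Subgroup.zpowers (xx n)) :
    ∃ k, Good n (ψ (xx n)) k := by
  obtain ⟨-, e2, e3, e4, -⟩ := hEVB n
  obtain ⟨-, -, -, -, -, -, -, -, -, hmono, -, hout, hin, hx, -⟩ := hAXI n
  set y := ψ (xx n) with hy
  have hy1 : y ≠ 1 := by
    intro h
    apply hx
    have h2 : ψ (xx n) = ψ 1 := by rw [← hy, h, map_one]
    exact ψ.injective h2
  have hy2 : y⁻¹ ≠ 1 := fun h => hy1 (inv_eq_one.1 h)
  have hFC : ∀ j, FC (H n j) := fun j => (hFCB n).2.2.2.2 _ _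
  -- subsets
  have esub : ∀ (z : FG n) (A B : Set (FG n)), z ≠ 1 → Ev z A → A ⊆ B → Ev z B := by
    intro z A B hz hA hAB
    refine e4 z A B hz hA ?_
    show (A \ B).Finite
    rw [Set.sdiff_eq_empty.2 hAB]
    exact Set.finite_empty
  have down : ∀ (z : FG n) (i j : ℤ), z ≠ 1 → i ≤ j → Ev z (H n j) → Ev z (H n i) :=
    fun z i j hz hij h => esub z _ _ hz h (hmono i j hij)
  -- a shadow crossed by y
  obtain ⟨v, s, hvs⟩ := hHYP n y hy1
  obtain ⟨J1, hJ1⟩ := hout v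
  obtain ⟨J2, hJ2⟩ := hin v
  have key : ∀ A : Set (FG n), (A ⊆ Sh v s ∨ A ⊆ (Sh v s)ᶜ) → ¬ (Ev y A ∧ Ev y⁻¹ A) := by
    rintro A (h | h) ⟨h1, h2⟩
    · exact e3 _ _ (esub _ _ _ hy2 h2 h) hvs.2
    · exact e3 _ _ hvs.1 (esub _ _ _ hy1 h1 h)
  have ha : ∀ j, J1 ≤ j → ¬ Ins y (H n j) := fun j hj h =>
    key _ (side hSH hCON v (xx n ^ j) s (0, true) (hJ1 j hj)) h
  have hb : ∀ j, j ≤ J2 → ¬ Ins y (H n j)ᶜ := by
    intro j hj h
    refine key (H n j)ᶜ ?_ h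
    rw [show (H n j)ᶜ = Sh (xx n ^ j * el ((0, true) : Lt n)) (op ((0, true) : Lt n)) from
      (hSH n).2.1 (xx n ^ j) (0, true)]
    apply side hSH hCON
    rw [← show (H n j)ᶜ = Sh (xx n ^ j * el ((0, true) : Lt n)) (op ((0, true) : Lt n)) from
      (hSH n).2.1 (xx n ^ j) (0, true)]
    exact fun hc => hc (hJ2 j hj)
  -- nobody crosses two far walls
  have hcr : ∀ j, ¬ (Cr y (H n j) ∧ Cr y (H n (j + NN n + 2))) := fun j h =>
    hne (hPZR n ψ j h.1 h.2)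
  -- exactly one end
  have hone : ∀ j, ¬ Ins y (H n j) → ¬ Ins y (H n j)ᶜ → Cr y (H n j) := by
    intro j h1 h2
    rcases e2 y (H n j) hy1 (hFC j) with h | h <;> rcases e2 y⁻¹ (H n j) hy2 (hFC j) with h' | h'
    · exact absurd ⟨h, h'⟩ h1
    · exact Or.inl ⟨h, h'⟩
    · refine Or.inr ⟨h', ?_⟩
      rwa [inv_inv]
    · exact absurd ⟨h, h'⟩ h2
  -- the maximum
  have hnon : ∃ j, Ins y (H n j) := by
    by_contra hcon
    push Not at hcon
    apply hcr (J2 - NN n - 2)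
    refine ⟨hone _ (hcon _) (hb _ (by omega)), ?_⟩
    exact hone _ (hcon _) (hb _ (by omega))
  have hdn : ∀ i j, i ≤ j → Ins y (H n j) → Ins y (H n i) := fun i j hij h =>
    ⟨down _ _ _ hy1 hij h.1, down _ _ _ hy2 hij h.2⟩
  obtain ⟨k, hk, hkmax⟩ := Int.exists_greatest_of_bdd (P := fun j => Ins y (H n j))
    ⟨J1, fun j hj => by
      by_contra hlt
      exact ha j (by omega) hj⟩ hnon
  refine ⟨k, fun j hj => hdn j k hj hk, fun h => by have := hkmax _ h; omega, ?_⟩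
  intro j hj
  have hk1 : ¬ Ins y (H n (k + 1)) := fun h => by have := hkmax _ h; omega
  by_contra hcon
  apply hcr (k + 1)
  have hk2 : ¬ Ins y (H n (k + 1 + NN n + 2)) := fun h => hk1 (hdn _ _ (by omega) h)
  have hcmono : ∀ i l : ℤ, i ≤ l → Ins y (H n i)ᶜ → Ins y (H n l)ᶜ := fun i l hil h =>
    ⟨esub _ _ _ hy1 h.1 (Set.compl_subset_compl.2 (hmono i l hil)),
      esub _ _ _ hy2 h.2 (Set.compl_subset_compl.2 (hmono i l hil))⟩
  exact ⟨hone _ hk1 fun h => hcon (hcmono _ _ (by omega) h),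
    hone _ hk2 fun h => hcon (hcmono _ _ (by omega) h)⟩

/-- KAP. -/
theorem t_KAP : S_SH → S_CON → S_FCB → S_EVB → S_WAL → S_AXI → S_HYP → S_PZR → S_KAP := by
  intro hSH hCON hFCB hEVB _ hAXI hHYP hPZR n
  classical
  have hx : xx n ≠ 1 := (hAXI n).2.2.2.2.2.2.2.2.2.2.2.2.2.1
  let P : Subgroup (FG n) → ℤ → Prop := fun C k =>
    ∀ ψ : MulAut (FG n), Subgroup.zpowers (ψ (xx n)) = C → Good n (ψ (xx n)) k
  have hP : ∀ ψ : MulAut (FG n), Subgroup.zpowers (ψ (xx n)) ≠ Subgroup.zpowers (xx n) →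
      ∃ k, P (Subgroup.zpowers (ψ (xx n))) k := by
    intro ψ hψ
    obtain ⟨k, hk⟩ := exists_good hSH hCON hFCB hEVB hAXI hHYP hPZR ψ hψ
    refine ⟨k, fun φ hφ => ?_⟩
    have h1 : ψ (xx n) ≠ 1 := by
      intro h
      apply hx
      have h2 : ψ (xx n) = ψ 1 := by rw [h, map_one]
      exact ψ.injective h2
    rcases gen_eq hEVB h1 hφ with h | h
    · rw [h]; exact hk
    · rw [h]; exact Good_inv hk
  refine ⟨fun C => if h : ∃ k, P C k then h.choose else 0, fun ψ hψ k hk => ?_⟩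
  have h := hP ψ hψ
  have hk' : k = h.choose := by
    rw [hk]
    show (if h : ∃ k, P (Subgroup.zpowers (ψ (xx n))) k then h.choose else 0) = _
    rw [dif_pos h]
  rw [hk']
  exact h.choose_spec ψ rfl

end Run7.h896.NF
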