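import Pool.Agent.Run7.h41.NF.Iface

set_option autoImplicit false

/-!
# Project NF, piece POS: the position of a wall crossed by the special element
-/

namespace Run7.h896.NF

open Run7.h955 (Ev Thru Ins am cj)
open Run7.h41.NF

/-- The finite letter coboundary leaves the walls `H j` for `j` large. -/
lemma exists_large {n : ℕ} (hout : ∀ y : FG n, ∃ J : ℤ, ∀ j, J ≤ j → y ∉ H n j) (B : Set (FG n))
    (hB : B.Finite) : ∃ J : ℤ, ∀ j, J ≤ j → ∀ y ∈ B, y ∉ H n j := by
  induction B, hB using Set.Finite.induction_on with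
  | empty => exact ⟨0, fun j _ y hy => absurd hy (Set.notMem_empty y)⟩
  | @insert a s _ _ ih =>
    obtain ⟨J, hJ⟩ := ih
    obtain ⟨K, hK⟩ := hout a
    refine ⟨max J K, fun j hj y hy => ?_⟩
    rcases Set.mem_insert_iff.1 hy with rfl | hy
    · exact hK j (le_trans (le_max_right _ _) hj)
    · exact hJ j (le_trans (le_max_left _ _) hj) y hy

/-- The finite letter coboundary is in the walls `H j` for `j` very negative. -/
lemma exists_small {n : ℕ} (hin : ∀ y : FG n, ∃ J : ℤ, ∀ j, j ≤ J → y ∈ H n j) (B : Set (FG n))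
    (hB : B.Finite) : ∃ J : ℤ, ∀ j, j ≤ J → ∀ y ∈ B, y ∈ H n j := by
  induction B, hB using Set.Finite.induction_on with
  | empty => exact ⟨0, fun j _ y hy => absurd hy (Set.notMem_empty y)⟩
  | @insert a s _ _ ih =>
    obtain ⟨J, hJ⟩ := ih
    obtain ⟨K, hK⟩ := hin a
    refine ⟨min J K, fun j hj y hy => ?_⟩
    rcases Set.mem_insert_iff.1 hy with rfl | hy
    · exact hK j (le_trans hj (min_le_right _ _))
    · exact hJ j (le_trans hj (min_le_left _ _)) y hy

/-- The complement of `H j` is a shadow. -/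
lemma H_compl {n : ℕ} (hSH : S_SH) (j : ℤ) :
    (H n j)ᶜ = Sh (xx n ^ j * el ((0, true) : Lt n)) (op ((0, true) : Lt n)) :=
  (hSH n).2.1 (xx n ^ j) (0, true)

/-- POS. -/
theorem t_POS : S_SH → S_CON → S_FCB → S_EVB → S_WAL → S_AXI → S_LEF → S_POS := by
  intro hSH hCON _ hEVB hWAL hAXI hLEF n A hA hthru
  obtain ⟨-, -, -, -, e5, -⟩ := hEVB n
  obtain ⟨-, -, -, -, -, -, -, -, -, hmono, hinf, hout, hin, hne, hth⟩ := hAXI n
  have hFC : FC A := (hWAL n).1 A hA
  have hne' : (xx n)⁻¹ ≠ 1 := fun h => hne (inv_eq_one.1 h)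
  -- the letter coboundary
  set B : Set (FG n) := ⋃ t : Lt n, {x | ¬ (x * el t ∈ A ↔ x ∈ A)} with hBdef
  have hB : B.Finite := Set.finite_iUnion fun t => hFC (el t)
  have hBmem : ∀ y, y ∉ B → ∀ t : Lt n, (y * el t ∈ A ↔ y ∈ A) := by
    intro y hy t
    by_contra hcon
    exact hy (Set.mem_iUnion.2 ⟨t, hcon⟩)
  -- both ends
  have hpp : ∀ j, (A ∩ H n j).Infinite := fun j => e5 _ _ _ hne hthru.1 (hth j).1
  have hmm : ∀ j, (Aᶜ ∩ (H n j)ᶜ).Infinite := fun j => e5 _ _ _ hne' hthru.2 (hth j).2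
  obtain ⟨J1, hJ1⟩ := exists_large hout B hB
  obtain ⟨J2, hJ2⟩ := exists_small hin B hB
  have hlarge : ∀ j, J1 ≤ j → H n j ⊆ A := by
    intro j hj
    rcases hCON n A (xx n ^ j) (0, true)
      (fun y hy t _ => hBmem y (fun hyB => hJ1 j hj y hyB hy) t) with h | h
    · exact h
    · obtain ⟨y, hy⟩ := (hpp j).nonempty
      exact absurd hy.1 (h hy.2)
  have hsmall : ∀ j, j ≤ J2 → A ⊆ H n j := by
    intro j hj
    have hc := H_compl hSH (n := n) j
    rcases hCON n A (xx n ^ j * el ((0, true) : Lt n)) (op ((0, true) : Lt n))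
      (fun y hy t _ => hBmem y (fun hyB => by
        rw [← hc] at hy
        exact hy (hJ2 j hj y hyB)) t) with h | h
    · rw [← hc] at h
      obtain ⟨y, hy⟩ := (hmm j).nonempty
      exact absurd (h hy.2) hy.1
    · rw [← hc] at h
      intro y hy
      by_contra hcon
      exact h hcon hy
  have htri : ∀ j, ¬ Sub (H n j) A → ¬ Sub A (H n j) → X4 A (H n j) := by
    intro j h1 h2
    refine ⟨hpp j, ?_, ?_, hmm j⟩
    · intro h
      apply h2
      unfold Run7.h41.NF.Sub
      rwa [Set.sdiff_eq]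
    · intro h
      apply h1
      unfold Run7.h41.NF.Sub
      rwa [Set.sdiff_eq, Set.inter_comm]
  -- the minimum
  have hbdd : ∀ j, Sub (H n j) A → J2 ≤ j := by
    intro j hj
    by_contra hlt
    push Not at hlt
    refine hinf j (j + 1) (by omega) (hj.subset ?_)
    exact Set.sdiff_subset_sdiff_right (hsmall (j + 1) (by omega))
  obtain ⟨b, hb, hbmin⟩ := Int.exists_least_of_bdd (P := fun j => Sub (H n j) A) ⟨J2, hbdd⟩
    ⟨J1, by
      show (H n J1 \ A).Finite
      rw [Set.sdiff_eq_empty.2 (hlarge J1 le_rfl)]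
      exact Set.finite_empty⟩
  have hsub2 : ∀ i j, i ≤ j → Sub A (H n j) → Sub A (H n i) := fun i j hij h =>
    h.subset (Set.sdiff_subset_sdiff_right (hmono i j hij))
  refine ⟨b - 2, by simpa using hb, ?_⟩
  by_contra hcon
  have h1 : ¬ Sub A (H n (b - 1)) := fun h => hcon (hsub2 _ _ (by omega) h)
  have x1 : X4 A (H n (b - 2)) := htri _ (fun h => by have := hbmin _ h; omega) hcon
  have x2 : X4 A (H n (b - 1)) := htri _ (fun h => by have := hbmin _ h; omega) h1
  have h3 := hLEF n A hA (b - 2) x1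
  rw [show b - 2 + 1 = b - 1 by ring] at h3
  exact h3 x2

end Run7.h896.NF
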